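import Mathlib
import Pool.Agent.Q122.SR.Nec

set_option autoImplicit false

/-!
# Strongly reversible elements of the compact spinor groups

An element `g` of `Spin(n)` with `g ^ 2 = 1` acts on `ℝ^n` as an involution whose `(-1)`-eigenspace
has dimension divisible by four, and conversely every product of `4k` orthonormal vectors is such an
element. If `g` inverts `x`, the trace of `g` on the planes on which `x` acts by a rotation of order
greater than two is zero, and a trace on the Clifford algebra controls the remaining planes.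
-/

namespace Pool.Agent.Results.MP_aa0c4d_al.Classification

noncomputable section

/-- Euclidean space `ℝ^n`. -/
def E (n : ℕ) : Type := EuclideanSpace ℝ (Fin n)

instance normedE (n : ℕ) : NormedAddCommGroup (E n) :=
  (inferInstance : NormedAddCommGroup (EuclideanSpace ℝ (Fin n)))

instance innerE (n : ℕ) : InnerProductSpace ℝ (E n) :=
  (inferInstance : InnerProductSpace ℝ (EuclideanSpace ℝ (Fin n)))

/-- The quadratic form `-|v|^2` on `ℝ^n`. -/
def negForm (n : ℕ) : QuadraticForm ℝ (E n) :=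
  LinearMap.BilinMap.toQuadraticMap (-(innerₗ (E n)))

/-- The algebra `C_n`: the Clifford algebra of `-|v|^2`, in which `e_i ^ 2 = -1`. -/
def Cl (n : ℕ) : Type := CliffordAlgebra (negForm n)

instance ringCl (n : ℕ) : Ring (Cl n) := (inferInstance : Ring (CliffordAlgebra (negForm n)))

instance algebraCl (n : ℕ) : Algebra ℝ (Cl n) :=
  (inferInstance : Algebra ℝ (CliffordAlgebra (negForm n)))

/-- A vector of `ℝ^n` as an element of `C_n`. -/
def vec {n : ℕ} (v : E n) : Cl n := CliffordAlgebra.ι (negForm n) v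

/-- The `i`-th standard basis vector as an element of `C_n` (indices start at `0`). -/
def e {n : ℕ} (i : Fin n) : Cl n := vec (n := n) (EuclideanSpace.single i (1 : ℝ))

/-- The subgroup of the units of `C_n` generated by the products of two unit vectors, that is, the
group of all products of an even number of unit vectors. -/
def evenProducts (n : ℕ) : Subgroup (Cl n)ˣ :=
  Subgroup.closure {u | ∃ v w : E n, ‖v‖ = 1 ∧ ‖w‖ = 1 ∧ (u : Cl n) = vec v * vec w}

/-- `Spin(n)`. -/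
def Spin (n : ℕ) : Type := evenProducts n

instance groupSpin (n : ℕ) : Group (Spin n) := (inferInstance : Group (evenProducts n))

/-- The element of `C_n` given by an element of `Spin(n)`. -/
def val {n : ℕ} (x : Spin n) : Cl n := Units.val (Subtype.val x)

/-- The factor `λ_j + μ_j e_{2j-1} e_{2j}` (indices from `0` in Lean). -/
def factor {n : ℕ} (l μ : Fin (n / 2) → ℝ) (j : Fin (n / 2)) : Cl n :=
  algebraMap ℝ (Cl n) (l j) + μ j • (e ⟨2 * j, by omega⟩ * e ⟨2 * j + 1, by omega⟩)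

/-- `(λ_1 + μ_1 e_1 e_2) (λ_2 + μ_2 e_3 e_4) ⋯ (λ_m + μ_m e_{2m-1} e_{2m})`, `m = ⌊n/2⌋`. -/
def normalForm {n : ℕ} (l μ : Fin (n / 2) → ℝ) : Cl n :=
  ((List.finRange (n / 2)).map (factor l μ)).prod

/-- An element of a group is strongly reversible if an element `g` with `g ^ 2 = 1` conjugates it to
its inverse. -/
def StronglyReversible {G : Type*} [Group G] (x : G) : Prop :=
  ∃ g : G, g ^ 2 = 1 ∧ g * x * g⁻¹ = x⁻¹

/-- The criterion. -/
def Criterion (n : ℕ) (l μ : Fin (n / 2) → ℝ) : Prop :=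
  (n % 8 = 0 ∨ n % 8 = 1 ∨ n % 8 = 7) ∨
  ((n % 8 = 2 ∨ n % 8 = 6) ∧ ∃ j, μ j = 0) ∨
  ((n % 8 = 3 ∨ n % 8 = 5) ∧ ((∃ j, μ j = 0) ∨ ∃ j k, j ≠ k ∧ l j = 0 ∧ l k = 0)) ∨
  (n % 8 = 4 ∧ ((∃ j k, j ≠ k ∧ l j = 0 ∧ l k = 0) ∨ ∃ j k, j ≠ k ∧ μ j = 0 ∧ μ k = 0))

end

lemma conj_iff {G : Type*} [Group G] {x y : G} (h : IsConj x y) (hx : StronglyReversible x) :
    StronglyReversible y := by
  obtain ⟨c, hc⟩ := isConj_iff.1 h
  obtain ⟨g, hg, hgx⟩ := hx
  refine ⟨c * g * c⁻¹, ?_, ?_⟩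
  · rw [sq] at hg ⊢
    calc c * g * c⁻¹ * (c * g * c⁻¹) = c * (g * g) * c⁻¹ := by group
      _ = 1 := by rw [hg]; group
  · rw [← hc]
    calc c * g * c⁻¹ * (c * x * c⁻¹) * (c * g * c⁻¹)⁻¹ = c * (g * x * g⁻¹) * c⁻¹ := by group
      _ = (c * x * c⁻¹)⁻¹ := by rw [hgx]; group

lemma aux (n : ℕ) (l μ : Fin (n / 2) → ℝ) (h : ∀ j, l j ^ 2 + μ j ^ 2 = 1) :
    ∃ x₀ : Q122.SR.Spin n, ((x₀ : (Q122.SR.Cl n)ˣ) : Q122.SR.Cl n) = Q122.SR.normalForm l μ ∧
      (Q122.SR.StronglyReversible x₀ ↔ Criterion n l μ) := by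
  classical
  obtain ⟨x, hx, hx'⟩ := Q122.SR.normalForm_mem l μ h (List.finRange (n / 2))
  refine ⟨⟨x, hx⟩, hx', ?_⟩
  have hone : ∀ ν : Fin (n / 2) → ℝ, 1 ≤ (Finset.univ.filter fun j => ν j = 0).card ↔
      ∃ j, ν j = 0 := by
    intro ν
    rw [Nat.one_le_iff_ne_zero, ← Nat.pos_iff_ne_zero, Finset.card_pos]
    exact ⟨fun ⟨j, hj⟩ => ⟨j, (Finset.mem_filter.1 hj).2⟩, fun ⟨j, hj⟩ => ⟨j, by simp [hj]⟩⟩
  have htwo : ∀ ν : Fin (n / 2) → ℝ, 2 ≤ (Finset.univ.filter fun j => ν j = 0).card ↔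
      ∃ j k, j ≠ k ∧ ν j = 0 ∧ ν k = 0 := by
    intro ν
    constructor
    · intro hν
      obtain ⟨j, hj, k, hk, hjk⟩ := Finset.one_lt_card.1 hν
      exact ⟨j, k, hjk, (Finset.mem_filter.1 hj).2, (Finset.mem_filter.1 hk).2⟩
    · rintro ⟨j, k, hjk, hj, hk⟩
      exact Finset.one_lt_card.2 ⟨j, by simp [hj], k, by simp [hk], hjk⟩
  have h2 : Q122.SR.StronglyReversible (⟨x, hx⟩ : Q122.SR.Spin n) ↔
      Q122.SR.Cond n (Finset.univ.filter fun j => l j = 0).card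
        (Finset.univ.filter fun j => μ j = 0).card :=
    ⟨Q122.SR.necessary l μ h ⟨x, hx⟩ hx', Q122.SR.sufficient l μ h ⟨x, hx⟩ hx'⟩
  rw [h2, Q122.SR.Cond, hone, htwo, htwo, Criterion]

/-- Let `m = ⌊n/2⌋` and `λ_j ^ 2 + μ_j ^ 2 = 1` for `j = 1, …, m`. The element
`x₀ = (λ_1 + μ_1 e_1 e_2) ⋯ (λ_m + μ_m e_{2m-1} e_{2m})` lies in `Spin(n)`, and an element `x`
conjugate to it in `Spin(n)` is strongly reversible in `Spin(n)` if and only if
* `n ≡ 0, 1, 7 (mod 8)`, or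
* `n ≡ 2, 6 (mod 8)` and some `μ_j = 0`, or
* `n ≡ 3, 5 (mod 8)` and some `μ_j = 0` or at least two `λ_j = 0`, or
* `n ≡ 4 (mod 8)` and at least two `λ_j = 0` or at least two `μ_j = 0`. -/
theorem result (n : ℕ) (l μ : Fin (n / 2) → ℝ) (h : ∀ j, l j ^ 2 + μ j ^ 2 = 1) :
    ∃ x₀ : Spin n, val x₀ = normalForm l μ ∧
      ∀ x : Spin n, IsConj x x₀ → (StronglyReversible x ↔ Criterion n l μ) := by
  have key : ∃ x₀ : Spin n, val x₀ = normalForm l μ ∧
      (StronglyReversible x₀ ↔ Criterion n l μ) := aux n l μ h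
  obtain ⟨x, hx, hx'⟩ := key
  refine ⟨x, hx, ?_⟩
  intro y hy
  rw [← hx']
  exact ⟨conj_iff hy, conj_iff hy.symm⟩

end Pool.Agent.Results.MP_aa0c4d_al.Classification
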